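import Pool.Agent.EE.Width
import Pool.Agent.EE.Two
import Pool.Agent.EE.CodTwo

/-! For `n ≤ 2` and for `N ≤ n + 2` the Kolmogorov width of the octahedron is exactly
`c / (1 + c)`, where `c = c(N,n)` is the minimal coherence. -/

namespace Pool.Agent.Results.MP_943f09_an.ExactEdges

open Pool.Agent.MP_943f09_an

/-- The minimal coherence `c(N,n)` of `N` unit vectors in `ℝ^n`. -/
noncomputable def minCoherence (N n : ℕ) : ℝ :=
  sInf {m : ℝ | ∃ Φ : Fin N → EuclideanSpace ℝ (Fin n),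
    (∀ i, ‖Φ i‖ = 1) ∧ ∀ i j, i ≠ j → |inner ℝ (Φ i) (Φ j)| ≤ m}

/-- The Kolmogorov width `d_n(B_1^N, ℓ_∞^N)`. -/
noncomputable def octWidth (N n : ℕ) : ℝ :=
  sInf {r : ℝ | ∃ L : Submodule ℝ (Fin N → ℝ), Module.finrank ℝ L ≤ n ∧
    ∀ x : Fin N → ℝ, ∑ i, |x i| ≤ 1 → ∃ y ∈ L, ‖x - y‖ ≤ r}

/-- `d_n(B_1^N, ℓ_∞^N) = c(N,n) / (1 + c(N,n))` for `n ≤ 2` and for `N - n ≤ 2`. -/
theorem result (N n : ℕ) (hn : 1 ≤ n) (hN : n < N) (h : n ≤ 2 ∨ N ≤ n + 2) :
    octWidth N n = minCoherence N n / (1 + minCoherence N n) := by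
  refine EE.width_eq hn hN fun μ b hμ hb => ?_
  by_cases h1 : n = 1
  · subst h1
    exact (EE.ind_one (by omega) μ b hμ hb).elim
  by_cases h2 : n = 2
  · subst h2
    exact EE.hasDict_two (by omega) μ b hμ hb
  by_cases h3 : N = n + 1
  · subst h3
    have h4 : n + 1 - 1 = n := by omega
    have h5 := EE.hasDict_codim_one (N := n + 1) (by omega) μ b
    rw [h4] at h5
    exact h5 hb
  · have h4 : N = n + 2 := by omega
    subst h4
    have h4 : n + 2 - 2 = n := by omega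
    have h5 := EE.hasDict_codim_two (N := n + 2) (by omega) μ b
    rw [h4] at h5
    exact h5 hb

end Pool.Agent.Results.MP_943f09_an.ExactEdges
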