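import Pool.Agent.MP_943f09_an.LowerMain
import Pool.Agent.MP_943f09_an.Signs
import Pool.Agent.MP_943f09_an.RS
import Pool.Agent.MP_943f09_an.Near

/-! The minimal coherence is at most `C √(1 + min (log (1 + n / log N), log N / log (n + 1)))`
times the Kolmogorov width of the octahedron. -/

namespace Pool.Agent.Results.MP_943f09_an.RatioBound

open Pool.Agent.MP_943f09_an

/-- The minimal coherence `c(N,n)` of `N` unit vectors in `ℝ^n`. -/
noncomputable def minCoherence (N n : ℕ) : ℝ :=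
  sInf {m : ℝ | ∃ Φ : Fin N → EuclideanSpace ℝ (Fin n),
    (∀ i, ‖Φ i‖ = 1) ∧ ∀ i j, i ≠ j → |inner ℝ (Φ i) (Φ j)| ≤ m}

/-- The Kolmogorov width `d_n(B_1^N, ℓ_∞^N)`. -/
noncomputable def octWidth (N n : ℕ) : ℝ :=
  sInf {r : ℝ | ∃ L : Submodule ℝ (Fin N → ℝ), Module.finrank ℝ L ≤ n ∧
    ∀ x : Fin N → ℝ, ∑ i, |x i| ≤ 1 → ∃ y ∈ L, ‖x - y‖ ≤ r}

theorem minCoherence_le {N n : ℕ} (hN : 2 ≤ N) {m : ℝ} (h : HasDict N n m) :
    minCoherence N n ≤ m := by
  refine csInf_le ⟨0, ?_⟩ h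
  rintro m ⟨Φ, -, h2⟩
  have := h2 ⟨0, by omega⟩ ⟨1, by omega⟩ (by simp)
  exact (abs_nonneg _).trans this

theorem hasApprox_one (N n : ℕ) : HasApprox N n 1 := by
  refine ⟨⊥, by simp, fun x hx => ⟨0, Submodule.zero_mem _, ?_⟩⟩
  rw [sub_zero]
  refine (pi_norm_le_iff_of_nonneg zero_le_one).2 fun i => ?_
  rw [Real.norm_eq_abs]
  exact (Finset.single_le_sum (f := fun i => |x i|) (fun i _ => abs_nonneg _)
    (Finset.mem_univ i)).trans hx

/-- Reed-Solomon bound in closed form. -/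
theorem upper_rs {N n : ℕ} (hn : 4 ≤ n) (hnN : n < N) :
    minCoherence N n ≤ 10 * (Real.log N / Real.log (n + 1)) / Real.sqrt n := by
  have hn0 : (0 : ℝ) < n := by exact_mod_cast (by omega : 0 < n)
  have hN1 : (1 : ℝ) < N := by exact_mod_cast (by omega : 1 < N)
  have hl0 : 0 < Real.log N := Real.log_pos hN1
  obtain ⟨q, hq, hq1, hq2⟩ := Nat.exists_prime_lt_and_le_two_mul (Nat.sqrt n / 2) (by
    have : 2 ≤ Nat.sqrt n := by rw [Nat.le_sqrt']; omega
    omega)
  have hqs : q ≤ Nat.sqrt n := by omega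
  have hqn : q ^ 2 ≤ n := by rw [Nat.le_sqrt'] at hqs; exact hqs
  have hn4 : n < 4 * q ^ 2 := by
    have h1 : Nat.sqrt n + 1 ≤ 2 * q := by omega
    have h2 : n < (Nat.sqrt n + 1) ^ 2 := by
      have := Nat.lt_succ_sqrt n
      rw [sq]; exact this
    calc n < (Nat.sqrt n + 1) ^ 2 := h2
      _ ≤ (2 * q) ^ 2 := Nat.pow_le_pow_left h1 2
      _ = 4 * q ^ 2 := by ring
  have hq2' := hq.two_le
  have hn5 : n + 1 ≤ q ^ 5 := by
    have h1 : 8 ≤ q ^ 3 := by
      calc 8 = 2 ^ 3 := by norm_num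
        _ ≤ q ^ 3 := Nat.pow_le_pow_left hq2' 3
    calc n + 1 ≤ 4 * q ^ 2 := hn4
      _ ≤ 8 * q ^ 2 := by omega
      _ ≤ q ^ 3 * q ^ 2 := Nat.mul_le_mul_right _ h1
      _ = q ^ 5 := by ring
  have hq0 : (0 : ℝ) < q := by exact_mod_cast hq.pos
  have hq1' : (1 : ℝ) < q := by exact_mod_cast hq.one_lt
  have hlq : 0 < Real.log q := Real.log_pos hq1'
  have hlog5 : Real.log (n + 1) ≤ 5 * Real.log q := by
    have h1 : ((n : ℝ) + 1) ≤ (q : ℝ) ^ 5 := by exact_mod_cast hn5
    have h2 := Real.log_le_log (by linarith) h1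
    rwa [Real.log_pow] at h2
  have hln : 0 < Real.log ((n : ℝ) + 1) := Real.log_pos (by linarith)
  set a := ⌈Real.log N / Real.log q⌉₊ with ha
  have ha1 : Real.log N / Real.log q ≤ a := Nat.le_ceil _
  have ha2 : (a : ℝ) < Real.log N / Real.log q + 1 := Nat.ceil_lt_add_one (by positivity)
  have hNa : N ≤ q ^ a := by
    rw [div_le_iff₀ hlq, ← Real.log_pow] at ha1
    have h1 := (Real.log_le_log_iff (by linarith) (by positivity)).1 ha1
    exact_mod_cast h1
  have h1 := minCoherence_le (by omega) (hasDict_rs hq hqn hNa)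
  refine h1.trans ?_
  have hsn : Real.sqrt n ≤ 2 * q := by
    have h2 : (n : ℝ) ≤ (2 * q) ^ 2 := by
      have : (n : ℝ) < 4 * (q : ℝ) ^ 2 := by exact_mod_cast hn4
      nlinarith
    calc Real.sqrt n ≤ Real.sqrt ((2 * q) ^ 2) := Real.sqrt_le_sqrt h2
      _ = 2 * q := Real.sqrt_sq (by positivity)
  have hsn0 : 0 < Real.sqrt n := Real.sqrt_pos.2 hn0
  have h3 : (a : ℝ) - 1 ≤ 5 * (Real.log N / Real.log (n + 1)) := by
    have h4 : Real.log N / Real.log q ≤ 5 * (Real.log N / Real.log (n + 1)) := by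
      rw [div_le_iff₀ hlq]
      have : 5 * (Real.log N / Real.log (n + 1)) * Real.log q =
        Real.log N * ((5 * Real.log q) / Real.log (n + 1)) := by field_simp
      rw [this]
      have h5 : 1 ≤ (5 * Real.log q) / Real.log (n + 1) := by rw [one_le_div hln]; exact hlog5
      nlinarith
    linarith
  have hA : 0 ≤ Real.log N / Real.log (n + 1) := by positivity
  rw [div_le_div_iff₀ hq0 hsn0]
  nlinarith

/-- Pointwise version. -/
theorem main_bound {N n : ℕ} (hn : 1 ≤ n) (hnN : n < N) {r : ℝ} (h : HasApprox N n r) :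
    minCoherence N n ≤ 1000 * Real.sqrt (1 + min (Real.log (1 + n / Real.log N))
      (Real.log N / Real.log (n + 1))) * r := by
  have hn0 : (0 : ℝ) < n := by exact_mod_cast hn
  have hN1 : (1 : ℝ) < N := by exact_mod_cast (by omega : 1 < N)
  have hl0 : 0 < Real.log N := Real.log_pos hN1
  have hln : 0 < Real.log ((n : ℝ) + 1) := Real.log_pos (by linarith)
  have hr0 := h.nonneg
  set ℓ := Real.log N with hℓ
  set A₁ := Real.log (1 + n / ℓ) with hA₁
  set A₂ := ℓ / Real.log (n + 1) with hA₂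
  have hx0 : 0 < (n : ℝ) / ℓ := by positivity
  have hA₁0 : 0 ≤ A₁ := Real.log_nonneg (by linarith)
  have hA₂0 : 0 ≤ A₂ := by positivity
  have hF1 : 1 ≤ Real.sqrt (1 + min A₁ A₂) := by
    rw [Real.one_le_sqrt]
    have := le_min hA₁0 hA₂0
    linarith
  have key : ∀ K : ℝ, 0 ≤ K → K ≤ 1000 → minCoherence N n ≤ K * r →
      minCoherence N n ≤ 1000 * Real.sqrt (1 + min A₁ A₂) * r := by
    intro K hK0 hK h1
    refine h1.trans (mul_le_mul_of_nonneg_right ?_ hr0)
    nlinarith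
  have hc1 : minCoherence N n ≤ 1 := minCoherence_le (by omega) (hasDict_one hn)
  have hc0 : 0 ≤ minCoherence N n := by
    refine Real.sInf_nonneg ?_
    rintro m ⟨Φ, -, h2⟩
    have := h2 ⟨0, by omega⟩ ⟨1, by omega⟩ (by simp)
    exact (abs_nonneg _).trans this
  have hsn0 : 0 < Real.sqrt n := Real.sqrt_pos.2 hn0
  have hsn2 : Real.sqrt n * Real.sqrt n = n := Real.mul_self_sqrt hn0.le
  -- the near-square regime
  rcases le_or_gt (3 * N) (4 * n) with h34 | h34
  · have h1 := minCoherence_le (by omega) (hasDict_near (N := N) (n := n) (k := N - n)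
      (by omega) (by omega) (by omega))
    have h2 := lower_sub h (by omega) le_rfl
    refine key 6 (by norm_num) (by norm_num) (h1.trans ?_)
    have hk : ((N - n : ℕ) : ℝ) = (N : ℝ) - n := by
      rw [Nat.cast_sub hnN.le]
    rw [hk, div_le_iff₀ (by linarith)]
    have h3 : Real.sqrt ((N : ℝ) - n) ≤ N * r := by
      rw [← mul_pow] at h2
      calc Real.sqrt ((N : ℝ) - n) ≤ Real.sqrt ((N * r) ^ 2) := Real.sqrt_le_sqrt h2
        _ = N * r := Real.sqrt_sq (by positivity)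
    linarith
  -- the width is at least a constant over `√n`
  have hlow : 1 ≤ 12 * n * r ^ 2 := by
    rcases le_or_gt (2 * n) N with h2 | h2
    · have h1 := lower_sub h (by omega) h2
      push_cast at h1
      have : (n : ℝ) * 1 ≤ n * (4 * n * r ^ 2) := by nlinarith
      have h3 := le_of_mul_le_mul_left this hn0
      have : 0 ≤ n * r ^ 2 := by positivity
      linarith
    · have h1 := lower_sub h (by omega) le_rfl
      have e1 : (N : ℝ) ≤ 2 * n := by exact_mod_cast h2.le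
      have e2 : (4 : ℝ) * n ≤ 3 * N := by exact_mod_cast h34.le
      have e3 : (N : ℝ) ^ 2 ≤ (2 * n) ^ 2 := pow_le_pow_left₀ (by linarith) e1 2
      have e4 : (N : ℝ) ^ 2 * r ^ 2 ≤ (2 * n) ^ 2 * r ^ 2 :=
        mul_le_mul_of_nonneg_right e3 (sq_nonneg r)
      have : (n : ℝ) * 1 ≤ n * (12 * n * r ^ 2) := by nlinarith
      exact le_of_mul_le_mul_left this hn0
  have hlow' : 1 ≤ 4 * (Real.sqrt n * r) := by
    by_contra hcon
    push Not at hcon
    have h1 : 0 ≤ Real.sqrt n * r := by positivity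
    have h2 : (4 * (Real.sqrt n * r)) ^ 2 < 1 := by nlinarith
    have h3 : (4 * (Real.sqrt n * r)) ^ 2 = 16 * n * r ^ 2 := by
      rw [mul_pow, mul_pow, sq (Real.sqrt n), hsn2]; ring
    have : 0 ≤ n * r ^ 2 := by positivity
    linarith
  -- small `n`
  rcases Nat.lt_or_ge n 4 with hn4 | hn4
  · refine key 8 (by norm_num) (by norm_num) (hc1.trans (hlow'.trans ?_))
    have : Real.sqrt n ≤ 2 := by
      have h1 : (n : ℝ) ≤ 2 ^ 2 := by
        have : n ≤ 4 := by omega
        have : (n : ℝ) ≤ 4 := by exact_mod_cast this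
        linarith
      calc Real.sqrt n ≤ Real.sqrt (2 ^ 2) := Real.sqrt_le_sqrt h1
        _ = 2 := Real.sqrt_sq (by norm_num)
    nlinarith
  have hrs := upper_rs hn4 hnN
  rw [← hℓ, ← hA₂] at hrs
  -- the intermediate range `4n/3 < N < 2n`
  rcases Nat.lt_or_ge N (2 * n) with h2n | h2n
  · refine key 80 (by norm_num) (by norm_num) (hrs.trans ?_)
    have hA2 : A₂ ≤ 2 := by
      rw [hA₂, div_le_iff₀ hln]
      have h1 : (N : ℝ) ≤ ((n : ℝ) + 1) ^ 2 := by
        have : N ≤ (n + 1) ^ 2 := by nlinarith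
        exact_mod_cast this
      have h2 := Real.log_le_log (by linarith) h1
      rw [Real.log_pow] at h2
      exact_mod_cast h2
    rw [div_le_iff₀ hsn0]
    nlinarith
  -- the main range
  have hmain := lower_main h hn h2n
  rw [← hℓ, ← hA₁] at hmain
  set c := minCoherence N n with hc
  have hcc : c ^ 2 ≤ 1 := by nlinarith
  have hstep : ∀ B : ℝ, 0 ≤ B → c ^ 2 * (1 + n / ℓ * (1 + A₁)) ≤ 3000 * (1 + B) →
      c ≤ 1000 * Real.sqrt (1 + B) * r := by
    intro B hB h1
    have h2 : c ^ 2 ≤ 320 * r ^ 2 * (3000 * (1 + B)) := by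
      have h3 : c ^ 2 * 1 ≤ c ^ 2 * (320 * (1 + n / ℓ * (1 + A₁)) * r ^ 2) :=
        mul_le_mul_of_nonneg_left hmain (sq_nonneg c)
      have h4 : 320 * r ^ 2 * (c ^ 2 * (1 + n / ℓ * (1 + A₁))) ≤ 320 * r ^ 2 * (3000 * (1 + B)) :=
        mul_le_mul_of_nonneg_left h1 (by positivity)
      nlinarith
    have h5 : c ^ 2 ≤ (1000 * Real.sqrt (1 + B) * r) ^ 2 := by
      rw [mul_pow, mul_pow, Real.sq_sqrt (by linarith)]
      have : 0 ≤ r ^ 2 * (1 + B) := by positivity
      nlinarith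
    exact le_of_sq_le_sq h5 (by positivity)
  rcases le_total A₁ A₂ with hle | hle
  · rw [min_eq_left hle]
    refine hstep A₁ hA₁0 ?_
    have h1 := minCoherence_le (by omega) (hasDict_signs (N := N) (n := n) (by omega) hn)
    rw [← hc, ← hℓ] at h1
    have h2 : c ^ 2 * (n / ℓ) ≤ 4 := by
      have h3 : c ^ 2 ≤ (2 * Real.sqrt (ℓ / n)) ^ 2 := pow_le_pow_left₀ hc0 h1 2
      rw [mul_pow, Real.sq_sqrt (by positivity)] at h3
      calc c ^ 2 * (n / ℓ) ≤ (2 ^ 2 * (ℓ / n)) * (n / ℓ) :=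
            mul_le_mul_of_nonneg_right h3 hx0.le
        _ = 4 := by field_simp; norm_num
    nlinarith
  · rw [min_eq_right hle]
    refine hstep A₂ hA₂0 ?_
    have hlam : 1 ≤ Real.log ((n : ℝ) + 1) := by
      rw [Real.le_log_iff_exp_le (by linarith)]
      have := Real.exp_one_lt_d9
      have : (4 : ℝ) ≤ n := by exact_mod_cast hn4
      linarith
    have hllam : Real.log ((n : ℝ) + 1) ≤ ℓ := by
      apply Real.log_le_log (by linarith)
      exact_mod_cast hnN
    have hA1 : 1 + A₁ ≤ 2 * Real.log ((n : ℝ) + 1) := by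
      have h1 : A₁ ≤ Real.log ((n : ℝ) + 1) := by
        apply Real.log_le_log (by linarith)
        have : (n : ℝ) / ℓ ≤ n := div_le_self hn0.le (by linarith)
        linarith
      linarith
    have h2 : c ^ 2 * n ≤ 100 * A₂ ^ 2 := by
      have h3 : c * Real.sqrt n ≤ 10 * A₂ := by
        rw [le_div_iff₀ hsn0] at hrs
        exact hrs
      have h4 : (c * Real.sqrt n) ^ 2 ≤ (10 * A₂) ^ 2 := pow_le_pow_left₀ (by positivity) h3 2
      rw [mul_pow, mul_pow, Real.sq_sqrt hn0.le] at h4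
      linarith
    have h5 : c ^ 2 * (n / ℓ * (1 + A₁)) ≤ 200 * A₂ := by
      have h6 : c ^ 2 * (n / ℓ * (1 + A₁)) ≤
          c ^ 2 * (n / ℓ * (2 * Real.log ((n : ℝ) + 1))) := by gcongr
      have h7 : c ^ 2 * (n / ℓ * (2 * Real.log ((n : ℝ) + 1))) =
          2 * (c ^ 2 * n) * (Real.log ((n : ℝ) + 1) / ℓ) := by ring
      have h8 : 2 * (c ^ 2 * n) * (Real.log ((n : ℝ) + 1) / ℓ) ≤
          2 * (100 * A₂ ^ 2) * (Real.log ((n : ℝ) + 1) / ℓ) := by gcongr
      have h9 : 2 * (100 * A₂ ^ 2) * (Real.log ((n : ℝ) + 1) / ℓ) = 200 * A₂ := by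
        rw [hA₂]; field_simp; norm_num
      linarith
    linarith [h5, hcc]

/-- The ratio of the minimal coherence to the width is at most an absolute constant times
`√(1 + min (log (1 + n / log N), log N / log (n + 1)))`, for all `1 ≤ n < N`. -/
theorem result : ∃ C : ℝ, 0 < C ∧ ∀ N n : ℕ, 1 ≤ n → n < N →
    minCoherence N n ≤ C * Real.sqrt (1 + min (Real.log (1 + n / Real.log N))
      (Real.log N / Real.log (n + 1))) * octWidth N n := by
  refine ⟨1000, by norm_num, fun N n hn hnN => ?_⟩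
  have hne : {r : ℝ | ∃ L : Submodule ℝ (Fin N → ℝ), Module.finrank ℝ L ≤ n ∧
    ∀ x : Fin N → ℝ, ∑ i, |x i| ≤ 1 → ∃ y ∈ L, ‖x - y‖ ≤ r}.Nonempty := ⟨1, hasApprox_one N n⟩
  set F := Real.sqrt (1 + min (Real.log (1 + n / Real.log N)) (Real.log N / Real.log (n + 1)))
    with hF
  have hl0 : 0 < Real.log N := Real.log_pos (by exact_mod_cast (by omega : 1 < N))
  have hn0 : (0 : ℝ) < n := by exact_mod_cast hn
  have hFpos : 0 < F := by
    rw [hF]
    apply Real.sqrt_pos.2
    have h1 : 0 ≤ Real.log (1 + n / Real.log N) := Real.log_nonneg (by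
      have : 0 ≤ (n : ℝ) / Real.log N := by positivity
      linarith)
    have h2 : 0 ≤ Real.log N / Real.log (n + 1) :=
      div_nonneg hl0.le (Real.log_nonneg (by linarith))
    have := le_min h1 h2
    linarith
  have h1 : minCoherence N n / (1000 * F) ≤ octWidth N n := by
    refine le_csInf hne fun r hr => ?_
    rw [div_le_iff₀ (by positivity)]
    have := main_bound hn hnN (r := r) hr
    rw [← hF] at this
    linarith
  rw [div_le_iff₀ (by positivity)] at h1
  linarith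

end Pool.Agent.Results.MP_943f09_an.RatioBound
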